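import Pool.Agent.H685R3.KDefs
import Pool.Agent.Run7.h144.TD.Defs

/-!
Definitions: relations of rate zero, decoding with little advice, Turing reductions with bounded
use.
-/

set_option autoImplicit false

namespace Run7.h144.UT

open Nat.Partrec (Code)
open Encodable
open Pool.Agent.H685R3 (hist)

/-- The relation `S` has rate at most `1 / k`: it is covered by countably many relations `T j` such
that for all large `n` and every string `w` there are at most `2 ^ (n / k)` strings `hist y n` with
`T j x y` and `hist x n = w`, for some `x`. -/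
def Rate (k : ℕ) (S : (ℕ → Bool) → (ℕ → Bool) → Prop) : Prop :=
  ∃ T : ℕ → (ℕ → Bool) → (ℕ → Bool) → Prop, (∀ x y, S x y → ∃ j, T j x y) ∧
    ∀ j, ∃ N, ∀ n ≥ N, ∀ w : List Bool,
      {v | ∃ x y, T j x y ∧ hist x n = w ∧ hist y n = v}.ncard ^ k ≤ 2 ^ n

/-- The relation `S` has rate zero. -/
def RateZero (S : (ℕ → Bool) → (ℕ → Bool) → Prop) : Prop := ∀ k, Rate k S

/-- The decoder `U` finds the first `n` bits of `y` from those of `x` with an advice whose length is
`o(n)`. -/
def Decodes (U : List Bool → List Bool → List Bool) (x y : ℕ → Bool) : Prop :=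
  ∀ q : ℕ, ∃ N, ∀ n ≥ N, ∃ p : List Bool, q * p.length ≤ n ∧ U p (hist x n) = hist y n

/-- The plays `x` and `y` have information distance zero, for the decoder `U`: the first `n` bits
of each of them are found from those of the other one with an advice of length `o(n)`. -/
def Near (U : List Bool → List Bool → List Bool) (x y : ℕ → Bool) : Prop :=
  Decodes U x y ∧ Decodes U y x

/-- Some program computes `y` from `x` with use at most `f`: on the inputs `n` and `hist x s` it
gives the value `y n` for some `s ≤ f n`, and never another value. -/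
def UseLe (f : ℕ → ℕ) (x y : ℕ → Bool) : Prop :=
  ∃ c : Code, ∀ n, (∃ s ≤ f n, (y n).toNat ∈ c.eval (encode (n, hist x s))) ∧
    ∀ s v, v ∈ c.eval (encode (n, hist x s)) → v = (y n).toNat

/-- Turing equivalence with use `n + o(n)`. -/
def SlowUse (x y : ℕ → Bool) : Prop :=
  ∃ f : ℕ → ℕ, (∀ q, ∃ N, ∀ n ≥ N, q * f n ≤ (q + 1) * n) ∧ UseLe f x y ∧ UseLe f y x

/-- Turing equivalence with use `(1 + 1 / q) n + O(1)`. -/
def LinearUse (q : ℕ) (x y : ℕ → Bool) : Prop :=
  ∃ C : ℕ, UseLe (fun n => n + n / q + C) x y ∧ UseLe (fun n => n + n / q + C) y x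

/-- The plays `x` and `y` agree outside of a set of positions of density zero. -/
def DensityZero (x y : ℕ → Bool) : Prop :=
  ∀ q : ℕ, ∃ N, ∀ n ≥ N, q * ((Finset.range n).filter fun i => x i ≠ y i).card ≤ n

/-- Information distance zero, for the decoder `U`, or changes on a set of density zero. -/
def Coarse (U : List Bool → List Bool → List Bool) (x y : ℕ → Bool) : Prop :=
  Near U x y ∨ DensityZero x y

/-- `A` is closed under `S`. -/
def ClosedUnder (S : (ℕ → Bool) → (ℕ → Bool) → Prop) (A : Set (ℕ → Bool)) : Prop :=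
  ∀ x y, S x y → x ∈ A → y ∈ A

end Run7.h144.UT
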