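import Mathlib
import Pool.Agent.Run7.h144.UT.Defs
import Pool.Agent.H869R3.FN.Local
import Pool.Agent.Y588.TC.Main

/-!
Sets closed under Turing equivalence with use `(1 + 1 / q) n + O(1)` are closed under Thompson's
circle group.
-/

set_option autoImplicit false

namespace Run7.h144.UT

open Nat.Partrec (Code)
open Encodable
open Pool.Agent.H685R3 (hist charFn TuringInvariant)
open Pool.Agent.Y588.TC (quarter third CircleInvariant)

/-- Reading the place `g n` of the oracle. -/
theorem useLe_comp {g : ℕ → ℕ} (hg : Computable g) {f : ℕ → ℕ} (hf : ∀ n, g n + 1 ≤ f n)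
    (x : ℕ → Bool) : UseLe f x (x ∘ g) := by
  have h1 : Computable fun a : ℕ × List Bool => (a.2[g a.1]?).map Bool.toNat := by
    refine Computable.option_map ?_ ?_
    · exact Computable.list_getElem?.comp Computable.snd (hg.comp Computable.fst)
    · have h2 : Computable fun b : Bool => b.toNat := by
        have : Primrec fun b : Bool => b.toNat := Primrec.dom_finite _
        exact this.to_comp
      exact h2.comp Computable.snd
  have h3 : Partrec fun a : ℕ × List Bool =>
      (((a.2[g a.1]?).map Bool.toNat : Option ℕ) : Part ℕ) := h1.ofOption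
  obtain ⟨c, hc⟩ := Code.exists_code.1 h3
  have h4 : ∀ (n : ℕ) (σ : List Bool), c.eval (encode (n, σ)) =
      (((σ[g n]?).map Bool.toNat : Option ℕ) : Part ℕ) := by
    intro n σ
    rw [hc]
    simp only [encodek, Part.coe_some, Part.bind_some]
    ext v
    simp
  refine ⟨c, fun n => ⟨⟨g n + 1, hf n, ?_⟩, fun s v hv => ?_⟩⟩
  · rw [h4]
    simp [hist]
  · rw [h4] at hv
    simp only [hist, Part.mem_coe, Option.mem_def, Option.map_eq_some_iff,
      List.getElem?_map, List.getElem?_range] at hv
    obtain ⟨b, ⟨i, hi, rfl⟩, rfl⟩ := hv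
    rw [List.getElem?_eq_some_iff] at hi
    obtain ⟨hlt, hi⟩ := hi
    simp at hi
    subst hi
    rfl

theorem chi_eq_charFn (x : ℕ → Bool) :
    Pool.Agent.Helper446.Defs.chi (Pool.Agent.H639.LU.St x) = charFn x := by
  funext n
  simp only [Pool.Agent.Helper446.Defs.chi, charFn, Pool.Agent.Helper446.Defs.chiN,
    Pool.Agent.H639.LU.St, Set.mem_setOf_eq]
  cases x n <;> simp

theorem turing_of_useLe {f : ℕ → ℕ} {x y : ℕ → Bool} (h : UseLe f x y) :
    TuringReducible (charFn y) (charFn x) := by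
  obtain ⟨c, hc⟩ := h
  have h1 : Pool.Agent.H639.LU.le y x := (Pool.Agent.H869R3.FN.le_iff x y).2 ⟨c, fun n v =>
    ⟨fun ⟨s, hs⟩ => (hc n).2 s v hs, fun hv => by
      obtain ⟨s, _, hs⟩ := (hc n).1
      exact ⟨s, hv ▸ hs⟩⟩⟩
  rw [Pool.Agent.H639.LU.le, chi_eq_charFn, chi_eq_charFn] at h1
  exact h1

theorem closed_of_turing {A : Set (ℕ → Bool)} (hA : TuringInvariant A) (q : ℕ) :
    ClosedUnder (LinearUse q) A := by
  rintro x y ⟨C, h1, h2⟩ hx
  exact hA x y (turing_of_useLe h2) (turing_of_useLe h1) hx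

theorem UseLe.mono {f g : ℕ → ℕ} {x y : ℕ → Bool} (h : UseLe f x y) (hfg : ∀ n, f n ≤ g n) :
    UseLe g x y := by
  obtain ⟨c, hc⟩ := h
  exact ⟨c, fun n => ⟨by
    obtain ⟨s, hs, h1⟩ := (hc n).1
    exact ⟨s, hs.trans (hfg n), h1⟩, (hc n).2⟩⟩

theorem linear_of_slow {x y : ℕ → Bool} (h : SlowUse x y) {q : ℕ} (hq : 0 < q) :
    LinearUse q x y := by
  obtain ⟨f, hf, h1, h2⟩ := h
  obtain ⟨N, hN⟩ := hf q
  have hle : ∀ n, f n ≤ n + n / q + (Finset.range N).sup f := by
    intro n
    by_cases h3 : n < N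
    · exact (Finset.le_sup (f := f) (Finset.mem_range.2 h3)).trans (Nat.le_add_left _ _)
    · have h4 := hN n (by omega)
      have h5 : f n - n ≤ n / q := by
        rw [Nat.le_div_iff_mul_le hq, Nat.sub_mul]
        have : (q + 1) * n = n * q + n := by ring
        have : q * f n = f n * q := by ring
        omega
      omega
  exact ⟨_, h1.mono hle, h2.mono hle⟩

variable {q : ℕ} {A : Set (ℕ → Bool)}

/-- Rearranging by functions of small displacement. -/
theorem mem_comp_iff (hA : ClosedUnder (LinearUse q) A) {g g' : ℕ → ℕ} (cg : Computable g)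
    (cg' : Computable g') (x y : ℕ → Bool) (h : ∀ n, y n = x (g n)) (h' : ∀ n, x n = y (g' n))
    (C : ℕ) (hb : ∀ n, g n + 1 ≤ n + n / q + C) (hb' : ∀ n, g' n + 1 ≤ n + n / q + C) :
    x ∈ A ↔ y ∈ A := by
  have h1 : UseLe (fun n => n + n / q + C) x y := by
    have : y = x ∘ g := funext h
    rw [this]
    exact useLe_comp cg hb x
  have h2 : UseLe (fun n => n + n / q + C) y x := by
    have : x = y ∘ g' := funext h'
    rw [this]
    exact useLe_comp cg' hb' y
  exact ⟨hA x y ⟨C, h1, h2⟩, hA y x ⟨C, h2, h1⟩⟩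

/-- The arrangement in blocks of length `4 q`: first `a` places of the form `4 i`, then `q` places
of the form `4 i + 2`, then `3 q - a` odd places. -/
def arr (q a n : ℕ) : ℕ :=
  if n % (4 * q) < a then 4 * (a * (n / (4 * q)) + n % (4 * q)) else
  if n % (4 * q) < a + q then 4 * (q * (n / (4 * q)) + (n % (4 * q) - a)) + 2 else
  2 * ((3 * q - a) * (n / (4 * q)) + (n % (4 * q) - a - q)) + 1

/-- The place of `p` in the arrangement. -/
def loc (q a p : ℕ) : ℕ :=
  if p % 4 = 0 then 4 * q * (p / 4 / a) + p / 4 % a else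
  if p % 4 = 2 then 4 * q * (p / 4 / q) + (a + p / 4 % q) else
  4 * q * (p / 2 / (3 * q - a)) + (a + q + p / 2 % (3 * q - a))

theorem arr_block {q a t r : ℕ} (hr : r < 4 * q) : arr q a (4 * q * t + r) =
    if r < a then 4 * (a * t + r) else if r < a + q then 4 * (q * t + (r - a)) + 2 else
    2 * ((3 * q - a) * t + (r - a - q)) + 1 := by
  have h1 : (4 * q * t + r) % (4 * q) = r := by
    rw [Nat.mul_add_mod, Nat.mod_eq_of_lt hr]
  have h2 : (4 * q * t + r) / (4 * q) = t := by
    rw [Nat.mul_add_div (by omega), Nat.div_eq_of_lt hr, add_zero]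
  rw [arr, h1, h2]

theorem arr_loc {q a : ℕ} (hq : 0 < q) (h1 : q ≤ a) (h2 : a ≤ 2 * q) (p : ℕ) :
    arr q a (loc q a p) = p := by
  rw [loc]
  split_ifs with h3 h4
  · have h5 : p / 4 % a < a := Nat.mod_lt _ (by omega)
    rw [arr_block (by omega), if_pos h5, Nat.div_add_mod]
    omega
  · have h5 : p / 4 % q < q := Nat.mod_lt _ (by omega)
    rw [arr_block (by omega), if_neg (by omega), if_pos (by omega),
      Nat.add_sub_cancel_left, Nat.div_add_mod]
    omega
  · have h5 : p / 2 % (3 * q - a) < 3 * q - a := Nat.mod_lt _ (by omega)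
    rw [arr_block (by omega), if_neg (by omega), if_neg (by omega)]
    have h6 : a + q + p / 2 % (3 * q - a) - a - q = p / 2 % (3 * q - a) := by omega
    rw [h6, Nat.div_add_mod]
    omega

theorem primrec_arr (q a : ℕ) : Primrec (arr q a) := by
  have hm : Primrec fun n : ℕ => n % (4 * q) := Primrec.nat_mod.comp Primrec.id (Primrec.const _)
  have hd : Primrec fun n : ℕ => n / (4 * q) := Primrec.nat_div.comp Primrec.id (Primrec.const _)
  refine Primrec.ite (Primrec.nat_lt.comp hm (Primrec.const a)) ?_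
    (Primrec.ite (Primrec.nat_lt.comp hm (Primrec.const (a + q))) ?_ ?_)
  · exact Primrec.nat_mul.comp (Primrec.const 4)
      (Primrec.nat_add.comp (Primrec.nat_mul.comp (Primrec.const a) hd) hm)
  · exact Primrec.nat_add.comp (Primrec.nat_mul.comp (Primrec.const 4)
      (Primrec.nat_add.comp (Primrec.nat_mul.comp (Primrec.const q) hd)
        (Primrec.nat_sub.comp hm (Primrec.const a)))) (Primrec.const 2)
  · exact Primrec.nat_add.comp (Primrec.nat_mul.comp (Primrec.const 2)
      (Primrec.nat_add.comp (Primrec.nat_mul.comp (Primrec.const (3 * q - a)) hd)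
        (Primrec.nat_sub.comp (Primrec.nat_sub.comp hm (Primrec.const a)) (Primrec.const q))))
        (Primrec.const 1)

theorem primrec_loc (q a : ℕ) : Primrec (loc q a) := by
  have h4 : Primrec fun n : ℕ => n / 4 := Primrec.nat_div.comp Primrec.id (Primrec.const _)
  have h2 : Primrec fun n : ℕ => n / 2 := Primrec.nat_div.comp Primrec.id (Primrec.const _)
  have hm : Primrec fun n : ℕ => n % 4 := Primrec.nat_mod.comp Primrec.id (Primrec.const _)
  refine Primrec.ite (Primrec.eq.comp hm (Primrec.const 0)) ?_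
    (Primrec.ite (Primrec.eq.comp hm (Primrec.const 2)) ?_ ?_)
  · exact Primrec.nat_add.comp (Primrec.nat_mul.comp (Primrec.const (4 * q))
      (Primrec.nat_div.comp h4 (Primrec.const a))) (Primrec.nat_mod.comp h4 (Primrec.const a))
  · exact Primrec.nat_add.comp (Primrec.nat_mul.comp (Primrec.const (4 * q))
      (Primrec.nat_div.comp h4 (Primrec.const q)))
      (Primrec.nat_add.comp (Primrec.const a) (Primrec.nat_mod.comp h4 (Primrec.const q)))
  · exact Primrec.nat_add.comp (Primrec.nat_mul.comp (Primrec.const (4 * q))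
      (Primrec.nat_div.comp h2 (Primrec.const (3 * q - a))))
      (Primrec.nat_add.comp (Primrec.const (a + q))
        (Primrec.nat_mod.comp h2 (Primrec.const (3 * q - a))))

/-- The main estimate. -/
theorem quot_aux {q a b t r u : ℕ} (hqa : q ≤ a) (hb : b ≤ a + 1) (hu : a * u ≤ b * t + r) :
    4 * q * u ≤ 4 * q * t + 4 * t + 4 * r := by
  have h1 : a * u ≤ a * t + t + r := by nlinarith
  rcases Nat.le_total u t with h | h
  · nlinarith [Nat.mul_le_mul_left (4 * q) h]
  · obtain ⟨d, rfl⟩ := Nat.exists_eq_add_of_le h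
    have h2 : a * d ≤ t + r := by nlinarith
    have h3 : q * d ≤ a * d := Nat.mul_le_mul_right _ hqa
    nlinarith

theorem loc_arr_le {q a b : ℕ} (hq : 0 < q) (ha : q ≤ a) (ha' : a ≤ 2 * q) (hb : q ≤ b)
    (hb' : b ≤ 2 * q) (h1 : b ≤ a + 1) (h2 : a ≤ b + 1) (n : ℕ) :
    loc q a (arr q b n) + 1 ≤ n + n / q + (20 * q + 1) := by
  obtain ⟨t, r, hr, rfl⟩ : ∃ t r, r < 4 * q ∧ n = 4 * q * t + r :=
    ⟨n / (4 * q), n % (4 * q), Nat.mod_lt _ (by omega), (Nat.div_add_mod n (4 * q)).symm⟩
  have hdiv : 4 * t ≤ (4 * q * t + r) / q := by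
    rw [Nat.le_div_iff_mul_le hq]
    nlinarith
  rw [arr_block hr]
  split_ifs with h3 h4
  · have h5 : loc q a (4 * (b * t + r)) =
        4 * q * ((b * t + r) / a) + (b * t + r) % a := by
      rw [loc, if_pos (by omega), show 4 * (b * t + r) / 4 = b * t + r by omega]
    rw [h5]
    have h6 := quot_aux (u := (b * t + r) / a) ha h1 (Nat.mul_div_le _ _)
    have h7 : (b * t + r) % a < a := Nat.mod_lt _ (by omega)
    omega
  · have h5 : loc q a (4 * (q * t + (r - b)) + 2) =
        4 * q * t + (a + (r - b)) := by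
      rw [loc, if_neg (by omega), if_pos (by omega),
        show (4 * (q * t + (r - b)) + 2) / 4 = q * t + (r - b) by omega,
        Nat.mul_add_div hq, Nat.mul_add_mod, Nat.div_eq_of_lt (by omega),
        Nat.mod_eq_of_lt (by omega), add_zero]
    rw [h5]
    omega
  · have h5 : loc q a (2 * ((3 * q - b) * t + (r - b - q)) + 1) =
        4 * q * (((3 * q - b) * t + (r - b - q)) / (3 * q - a)) +
          (a + q + ((3 * q - b) * t + (r - b - q)) % (3 * q - a)) := by
      rw [loc, if_neg (by omega), if_neg (by omega),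
        show (2 * ((3 * q - b) * t + (r - b - q)) + 1) / 2 = (3 * q - b) * t + (r - b - q) by
          omega]
    rw [h5]
    have h6 := quot_aux (q := q) (a := 3 * q - a) (b := 3 * q - b) (t := t) (r := r - b - q)
      (u := ((3 * q - b) * t + (r - b - q)) / (3 * q - a)) (by omega) (by omega)
      (Nat.mul_div_le _ _)
    have h7 : ((3 * q - b) * t + (r - b - q)) % (3 * q - a) < 3 * q - a :=
      Nat.mod_lt _ (by omega)
    omega

/-- One step: from one arrangement to the next one. -/
theorem mem_arr_succ (hA : ClosedUnder (LinearUse q) A) (hq : 0 < q) {a : ℕ} (ha : q ≤ a)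
    (ha' : a + 1 ≤ 2 * q) (x : ℕ → Bool) : x ∘ arr q a ∈ A ↔ x ∘ arr q (a + 1) ∈ A := by
  refine mem_comp_iff hA (g := fun n => loc q a (arr q (a + 1) n))
    (g' := fun n => loc q (a + 1) (arr q a n))
    ((primrec_loc q a).comp (primrec_arr q (a + 1))).to_comp
    ((primrec_loc q (a + 1)).comp (primrec_arr q a)).to_comp _ _ (fun n => ?_) (fun n => ?_)
    (20 * q + 1) (fun n => ?_) (fun n => ?_)
  · simp only [Function.comp_apply, arr_loc hq ha (by omega : a ≤ 2 * q)]
  · simp only [Function.comp_apply, arr_loc hq (by omega : q ≤ a + 1) ha']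
  · exact loc_arr_le hq ha (by omega) (by omega) ha' (by omega) (by omega) n
  · exact loc_arr_le hq (by omega) ha' ha (by omega) (by omega) (by omega) n

theorem mem_arr (hA : ClosedUnder (LinearUse q) A) (hq : 0 < q) (x : ℕ → Bool) (d : ℕ)
    (hd : d ≤ q) : x ∘ arr q q ∈ A ↔ x ∘ arr q (q + d) ∈ A := by
  induction d with
  | zero => exact Iff.rfl
  | succ d ih => exact (ih (by omega)).trans (mem_arr_succ hA hq (by omega) (by omega) x)

theorem mem_arr_start (hA : ClosedUnder (LinearUse q) A) (hq : 0 < q) (x : ℕ → Bool) :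
    x ∈ A ↔ x ∘ arr q q ∈ A := by
  refine mem_comp_iff hA (primrec_arr q q).to_comp (primrec_loc q q).to_comp _ _
    (fun n => rfl) (fun n => ?_) (20 * q + 4) (fun n => ?_) (fun n => ?_)
  · simp only [Function.comp_apply, arr_loc hq le_rfl (by omega : q ≤ 2 * q)]
  · obtain ⟨t, r, hr, rfl⟩ : ∃ t r, r < 4 * q ∧ n = 4 * q * t + r :=
      ⟨n / (4 * q), n % (4 * q), Nat.mod_lt _ (by omega), (Nat.div_add_mod n (4 * q)).symm⟩
    have h0 : 0 ≤ (4 * q * t + r) / q := Nat.zero_le _
    rw [arr_block hr]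
    have e1 : 4 * q * t = 4 * (q * t) := by ring
    have e2 : (3 * q - q) * t = 2 * (q * t) := by
      rw [show 3 * q - q = 2 * q by omega]
      ring
    rw [e2]
    split_ifs <;> omega
  · have h0 : 0 ≤ n / q := Nat.zero_le _
    rw [loc]
    have e3 : 3 * q - q = 2 * q := by omega
    rw [e3]
    have k1 : q * (n / 4 / q) ≤ n / 4 := Nat.mul_div_le _ _
    have k2 : 2 * q * (n / 2 / (2 * q)) ≤ n / 2 := Nat.mul_div_le _ _
    have k3 : n / 4 % q < q := Nat.mod_lt _ hq
    have k4 : n / 2 % (2 * q) < 2 * q := Nat.mod_lt _ (by omega)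
    have e4 : 4 * q * (n / 4 / q) = 4 * (q * (n / 4 / q)) := by ring
    have e5 : 4 * q * (n / 2 / (2 * q)) = 2 * (2 * q * (n / 2 / (2 * q))) := by ring
    rw [e4, e5]
    split_ifs <;> omega

/-- The inverse of `third`. -/
def thirdInv (n : ℕ) : ℕ := third (third n)

theorem third_mod_zero (m : ℕ) : third (4 * m) = 4 * m + 2 := by
  rw [third, if_pos (by omega)]

theorem third_mod_two (m : ℕ) : third (4 * m + 2) = 2 * m + 1 := by
  rw [third, if_neg (by omega), if_pos (by omega)]
  omega

theorem third_odd (m : ℕ) : third (2 * m + 1) = 4 * m := by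
  rw [third, if_neg (by omega), if_neg (by omega)]
  omega

theorem cases_mod (n : ℕ) : (∃ m, n = 4 * m) ∨ (∃ m, n = 4 * m + 2) ∨ ∃ m, n = 2 * m + 1 := by
  rcases (by omega : n % 4 = 0 ∨ n % 4 = 2 ∨ n % 2 = 1) with h | h | h
  · exact Or.inl ⟨n / 4, by omega⟩
  · exact Or.inr (Or.inl ⟨n / 4, by omega⟩)
  · exact Or.inr (Or.inr ⟨n / 2, by omega⟩)

theorem third_thirdInv (n : ℕ) : third (thirdInv n) = n := by
  rw [thirdInv]
  rcases cases_mod n with ⟨m, rfl⟩ | ⟨m, rfl⟩ | ⟨m, rfl⟩
  · rw [third_mod_zero, third_mod_two, third_odd]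
  · rw [third_mod_two, third_odd, third_mod_zero]
  · rw [third_odd, third_mod_zero, third_mod_two]

theorem primrec_third : Primrec third := by
  have hm : Primrec fun n : ℕ => n % 4 := Primrec.nat_mod.comp Primrec.id (Primrec.const _)
  refine Primrec.ite (Primrec.eq.comp hm (Primrec.const 0)) ?_
    (Primrec.ite (Primrec.eq.comp hm (Primrec.const 2)) ?_ ?_)
  · exact Primrec.nat_add.comp Primrec.id (Primrec.const 2)
  · exact Primrec.nat_div.comp Primrec.id (Primrec.const 2)
  · exact Primrec.nat_mul.comp (Primrec.const 2)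
      (Primrec.nat_sub.comp Primrec.id (Primrec.const 1))

theorem primrec_quarter : Primrec quarter := by
  have hm : Primrec fun n : ℕ => n % 4 := Primrec.nat_mod.comp Primrec.id (Primrec.const _)
  refine Primrec.ite (Primrec.eq.comp hm (Primrec.const 0)) ?_
    (Primrec.ite (Primrec.eq.comp hm (Primrec.const 2)) ?_
      (Primrec.ite (Primrec.eq.comp hm (Primrec.const 1)) ?_ ?_))
  · exact Primrec.nat_add.comp Primrec.id (Primrec.const 2)
  · exact Primrec.nat_sub.comp Primrec.id (Primrec.const 1)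
  · exact Primrec.nat_add.comp Primrec.id (Primrec.const 2)
  · exact Primrec.nat_sub.comp Primrec.id (Primrec.const 3)

theorem mem_arr_end (hA : ClosedUnder (LinearUse q) A) (hq : 0 < q) (x : ℕ → Bool) :
    x ∘ arr q (2 * q) ∈ A ↔ x ∘ third ∈ A := by
  refine mem_comp_iff hA (g := fun n => loc q (2 * q) (third n))
    (g' := fun n => thirdInv (arr q (2 * q) n))
    ((primrec_loc q (2 * q)).comp primrec_third).to_comp
    (primrec_third.comp (primrec_third.comp (primrec_arr q (2 * q)))).to_comp _ _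
    (fun n => ?_) (fun n => ?_) (20 * q + 4) (fun n => ?_) (fun n => ?_)
  · simp only [Function.comp_apply, arr_loc hq (by omega : q ≤ 2 * q) le_rfl]
  · simp only [Function.comp_apply, third_thirdInv]
  · have h0 : 0 ≤ n / q := Nat.zero_le _
    have e3 : 3 * q - 2 * q = q := by omega
    rcases cases_mod n with ⟨m, rfl⟩ | ⟨m, rfl⟩ | ⟨m, rfl⟩
    · rw [third_mod_zero, loc, if_neg (by omega), if_pos (by omega),
        show (4 * m + 2) / 4 = m by omega]
      have k1 : q * (m / q) ≤ m := Nat.mul_div_le _ _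
      have k3 : m % q < q := Nat.mod_lt _ hq
      have e4 : 4 * q * (m / q) = 4 * (q * (m / q)) := by ring
      omega
    · rw [third_mod_two, loc, if_neg (by omega), if_neg (by omega),
        show (2 * m + 1) / 2 = m by omega, e3]
      have k1 : q * (m / q) ≤ m := Nat.mul_div_le _ _
      have k3 : m % q < q := Nat.mod_lt _ hq
      have e4 : 4 * q * (m / q) = 4 * (q * (m / q)) := by ring
      omega
    · rw [third_odd, loc, if_pos (by omega), show 4 * m / 4 = m by omega]
      have k1 : 2 * q * (m / (2 * q)) ≤ m := Nat.mul_div_le _ _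
      have k3 : m % (2 * q) < 2 * q := Nat.mod_lt _ (by omega)
      have e4 : 4 * q * (m / (2 * q)) = 2 * (2 * q * (m / (2 * q))) := by ring
      omega
  · obtain ⟨t, r, hr, rfl⟩ : ∃ t r, r < 4 * q ∧ n = 4 * q * t + r :=
      ⟨n / (4 * q), n % (4 * q), Nat.mod_lt _ (by omega), (Nat.div_add_mod n (4 * q)).symm⟩
    have h0 : 0 ≤ (4 * q * t + r) / q := Nat.zero_le _
    rw [arr_block hr]
    have e1 : 4 * q * t = 4 * (q * t) := by ring
    have e2 : (3 * q - 2 * q) * t = q * t := by
      rw [show 3 * q - 2 * q = q by omega]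
    have e3 : 2 * q * t = 2 * (q * t) := by ring
    rw [e2, e3]
    split_ifs
    · rw [thirdInv, third_mod_zero, third_mod_two]
      omega
    · rw [thirdInv, third_mod_two, third_odd]
      omega
    · rw [thirdInv, third_odd, third_mod_zero]
      omega

theorem mem_third (hA : ClosedUnder (LinearUse q) A) (hq : 0 < q) (x : ℕ → Bool) :
    x ∈ A ↔ x ∘ third ∈ A := by
  have h1 := mem_arr hA hq x q le_rfl
  rw [show q + q = 2 * q by ring] at h1
  exact (mem_arr_start hA hq x).trans (h1.trans (mem_arr_end hA hq x))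

theorem quarter_zero (m : ℕ) : quarter (4 * m) = 4 * m + 2 := by
  rw [quarter, if_pos (by omega)]

theorem quarter_two (m : ℕ) : quarter (4 * m + 2) = 4 * m + 1 := by
  rw [quarter, if_neg (by omega), if_pos (by omega)]
  omega

theorem quarter_one (m : ℕ) : quarter (4 * m + 1) = 4 * m + 3 := by
  rw [quarter, if_neg (by omega), if_neg (by omega), if_pos (by omega)]

theorem quarter_three (m : ℕ) : quarter (4 * m + 3) = 4 * m := by
  rw [quarter, if_neg (by omega), if_neg (by omega), if_neg (by omega)]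
  omega

theorem quarter_four (n : ℕ) : quarter (quarter (quarter (quarter n))) = n := by
  obtain ⟨m, hm⟩ : ∃ m, n = 4 * m ∨ n = 4 * m + 1 ∨ n = 4 * m + 2 ∨ n = 4 * m + 3 :=
    ⟨n / 4, by omega⟩
  rcases hm with rfl | rfl | rfl | rfl
  · rw [quarter_zero, quarter_two, quarter_one, quarter_three]
  · rw [quarter_one, quarter_three, quarter_zero, quarter_two]
  · rw [quarter_two, quarter_one, quarter_three, quarter_zero]
  · rw [quarter_three, quarter_zero, quarter_two, quarter_one]

theorem quarter_le (n : ℕ) : quarter n ≤ n + 2 := by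
  unfold quarter
  split_ifs <;> omega

theorem mem_quarter (hA : ClosedUnder (LinearUse q) A) (x : ℕ → Bool) :
    x ∈ A ↔ x ∘ quarter ∈ A := by
  refine mem_comp_iff hA (g := quarter) (g' := fun n => quarter (quarter (quarter n)))
    primrec_quarter.to_comp
    (primrec_quarter.comp (primrec_quarter.comp primrec_quarter)).to_comp _ _
    (fun n => rfl) (fun n => ?_) 7 (fun n => ?_) (fun n => ?_)
  · simp only [Function.comp_apply, quarter_four]
  · have h0 : 0 ≤ n / q := Nat.zero_le _
    have := quarter_le n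
    omega
  · have h0 : 0 ≤ n / q := Nat.zero_le _
    have h1 := quarter_le n
    have h2 := quarter_le (quarter n)
    have h3 := quarter_le (quarter (quarter n))
    omega

theorem circle_of_linear (hA : ClosedUnder (LinearUse q) A) (hq : 0 < q) : CircleInvariant A :=
  fun x => ⟨(mem_quarter hA x).symm, (mem_third hA hq x).symm⟩

end Run7.h144.UT
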