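import Mathlib

/-!
Mycielski's theorem on independent Cantor sets, for countably many ternary relations. (The binary
case is in `Pool/Agent/H565R2/FO2/Myc.lean`, of which this is an adaptation.)
-/

set_option autoImplicit false

namespace Run7.h144.UT

open Set TopologicalSpace Filter Topology

theorem finite_choice {G : Type*} [MetricSpace G] [CompleteSpace G] {ι : Type*}
    [Fintype ι] [DecidableEq ι] (W : Set (G × G × G)) (hWo : IsOpen W) (hWd : Dense W)
    (y0 : ι → G) (ε : ℝ) (hε : 0 < ε) :
    ∃ y : ι → G, (∀ i, dist (y i) (y0 i) < ε) ∧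
      ∀ i j k, i ≠ j → i ≠ k → j ≠ k → (y i, y j, y k) ∈ W := by
  let D : ι × ι × ι → Set (ι → G) := fun p =>
    {y | p.1 ≠ p.2.1 → p.1 ≠ p.2.2 → p.2.1 ≠ p.2.2 → (y p.1, y p.2.1, y p.2.2) ∈ W}
  have hDo : ∀ p, IsOpen (D p) := by
    intro p
    by_cases hp : p.1 ≠ p.2.1 ∧ p.1 ≠ p.2.2 ∧ p.2.1 ≠ p.2.2
    · have : D p = (fun y : ι → G => (y p.1, y p.2.1, y p.2.2)) ⁻¹' W := by
        ext y
        simp [D, hp.1, hp.2.1, hp.2.2]
      rw [this]
      exact hWo.preimage ((continuous_apply _).prodMk
        ((continuous_apply _).prodMk (continuous_apply _)))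
    · have : D p = univ := by
        ext y
        simp only [D, mem_setOf_eq, mem_univ, iff_true]
        intro h1 h2 h3
        exact absurd ⟨h1, h2, h3⟩ hp
      rw [this]
      exact isOpen_univ
  have hDd : ∀ p, Dense (D p) := by
    intro p
    by_cases hp : p.1 ≠ p.2.1 ∧ p.1 ≠ p.2.2 ∧ p.2.1 ≠ p.2.2
    · obtain ⟨hp1, hp2, hp3⟩ := hp
      intro y
      rw [Metric.mem_closure_iff]
      intro δ hδ
      obtain ⟨w, hw, hwd⟩ := Metric.mem_closure_iff.1 (hWd (y p.1, y p.2.1, y p.2.2)) δ hδ
      refine ⟨Function.update (Function.update (Function.update y p.1 w.1) p.2.1 w.2.1) p.2.2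
        w.2.2, ?_, ?_⟩
      · intro _ _ _
        rw [Function.update_self, Function.update_of_ne hp2, Function.update_of_ne hp1,
          Function.update_self, Function.update_of_ne hp3, Function.update_self]
        exact hw
      · rw [dist_pi_lt_iff hδ]
        intro i
        rw [Prod.dist_eq, max_lt_iff, Prod.dist_eq, max_lt_iff] at hwd
        by_cases h3 : i = p.2.2
        · subst h3
          rw [Function.update_self]
          exact hwd.2.2
        · rw [Function.update_of_ne h3]
          by_cases h2 : i = p.2.1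
          · subst h2
            rw [Function.update_self]
            exact hwd.2.1
          · rw [Function.update_of_ne h2]
            by_cases h1 : i = p.1
            · subst h1
              rw [Function.update_self]
              exact hwd.1
            · rw [Function.update_of_ne h1, dist_self]
              exact hδ
    · have : D p = univ := by
        ext y
        simp only [D, mem_setOf_eq, mem_univ, iff_true]
        intro h1 h2 h3
        exact absurd ⟨h1, h2, h3⟩ hp
      rw [this]
      exact dense_univ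
  have hd := dense_iInter_of_isOpen hDo hDd
  obtain ⟨y, hy1, hy2⟩ := Metric.mem_closure_iff.1 (hd y0) ε hε
  refine ⟨y, fun i => ?_, fun i j k h1 h2 h3 => mem_iInter.1 hy1 (i, j, k) h1 h2 h3⟩
  rw [dist_pi_lt_iff hε] at hy2
  rw [dist_comm]
  exact hy2 i

theorem mycielski {G : Type*} [MetricSpace G] [CompleteSpace G] [Nonempty G] {κ : Type*}
    [Countable κ] (W : κ → Set (G × G × G)) (hWo : ∀ n, IsOpen (W n)) (hWd : ∀ n, Dense (W n)) :
    ∃ h : (ℕ → Bool) → G, Continuous h ∧
      ∀ b b' b'', b ≠ b' → b ≠ b'' → b' ≠ b'' → ∀ n, (h b, h b', h b'') ∈ W n := by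
  classical
  let Df : (ℕ × ℕ × ℕ) → Set ((ℕ → Bool) × (ℕ → Bool) × (ℕ → Bool)) := fun p =>
    {q | q.1 p.1 ≠ q.2.1 p.1 ∧ q.1 p.2.1 ≠ q.2.2 p.2.1 ∧ q.2.1 p.2.2 ≠ q.2.2 p.2.2}
  have hDcl : ∀ p, IsClosed (Df p) := by
    intro p
    have h0 : ∀ (i : ℕ) (f g : ((ℕ → Bool) × (ℕ → Bool) × (ℕ → Bool)) → ℕ → Bool),
        Continuous f → Continuous g → IsClosed {q | f q i ≠ g q i} := by
      intro i f g hf hg
      have : {q | f q i ≠ g q i} = (fun q => (f q i, g q i)) ⁻¹' {r : Bool × Bool | r.1 ≠ r.2} := by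
        ext q; simp
      rw [this]
      exact (isClosed_discrete _).preimage (((continuous_apply _).comp hf).prodMk
        ((continuous_apply _).comp hg))
    exact (h0 p.1 _ _ continuous_fst (continuous_fst.comp continuous_snd)).inter
      ((h0 p.2.1 _ _ continuous_fst (continuous_snd.comp continuous_snd)).inter
        (h0 p.2.2 _ _ (continuous_fst.comp continuous_snd) (continuous_snd.comp continuous_snd)))
  let O : (ℕ × ℕ × ℕ) × κ → Set C(ℕ → Bool, G) := fun p =>
    {h | ∀ q ∈ Df p.1, (h q.1, h q.2.1, h q.2.2) ∈ W p.2}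
  have hOo : ∀ p, IsOpen (O p) := by
    intro p
    rw [Metric.isOpen_iff]
    intro h hh
    have hcomp : IsCompact ((fun q : (ℕ → Bool) × (ℕ → Bool) × (ℕ → Bool) =>
        (h q.1, h q.2.1, h q.2.2)) '' Df p.1) := by
      apply (hDcl p.1).isCompact.image
      exact (h.continuous.comp continuous_fst).prodMk
        ((h.continuous.comp (continuous_fst.comp continuous_snd)).prodMk
          (h.continuous.comp (continuous_snd.comp continuous_snd)))
    obtain ⟨δ, hδ, hthick⟩ := hcomp.exists_thickening_subset_open (hWo p.2) (by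
      rintro _ ⟨q, hq, rfl⟩
      exact hh q hq)
    refine ⟨δ, hδ, fun g hg q hq => hthick ?_⟩
    rw [Metric.mem_thickening_iff]
    refine ⟨(h q.1, h q.2.1, h q.2.2), ⟨q, hq, rfl⟩, ?_⟩
    rw [Metric.mem_ball] at hg
    rw [Prod.dist_eq, max_lt_iff, Prod.dist_eq, max_lt_iff]
    exact ⟨(ContinuousMap.dist_apply_le_dist _).trans_lt hg,
      (ContinuousMap.dist_apply_le_dist _).trans_lt hg,
      (ContinuousMap.dist_apply_le_dist _).trans_lt hg⟩
  have hOd : ∀ p, Dense (O p) := by
    intro p h0
    rw [Metric.mem_closure_iff]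
    intro ε hε
    -- modulus of continuity
    have hN : ∃ N : ℕ, ∀ b b' : ℕ → Bool, (∀ i, i < N → b i = b' i) →
        dist (h0 b) (h0 b') < ε / 3 := by
      by_contra hc
      push Not at hc
      choose B B' hB1 hB2 using hc
      obtain ⟨b, _, φ, hφ, hlim⟩ := (isCompact_univ (X := ℕ → Bool)).tendsto_subseq
        (x := B) (fun n => mem_univ _)
      have hlim' : Tendsto (B' ∘ φ) atTop (𝓝 b) := by
        rw [tendsto_pi_nhds] at hlim ⊢
        intro i
        refine (hlim i).congr' ?_
        filter_upwards [eventually_gt_atTop i] with k hk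
        exact hB1 (φ k) i (lt_of_lt_of_le hk (hφ.id_le k))
      have h1 := (h0.continuous.tendsto b).comp hlim
      have h2 := (h0.continuous.tendsto b).comp hlim'
      have h3 := h1.dist h2
      rw [dist_self] at h3
      have h4 := ge_of_tendsto' h3 (fun k => hB2 (φ k))
      linarith
    obtain ⟨N, hN⟩ := hN
    set M := N + p.1.1 + p.1.2.1 + p.1.2.2 + 1 with hM
    let rep : (Fin M → Bool) → (ℕ → Bool) := fun s i => if h : i < M then s ⟨i, h⟩ else false
    obtain ⟨y, hy1, hy2⟩ := finite_choice (W p.2) (hWo _) (hWd _) (fun s => h0 (rep s)) (ε / 3)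
      (by linarith)
    let res : (ℕ → Bool) → (Fin M → Bool) := fun b i => b i
    have hres : Continuous res := continuous_pi fun i => continuous_apply _
    have hne : ∀ (b b' : ℕ → Bool) (i : ℕ), i < M → b i ≠ b' i → res b ≠ res b' := by
      intro b b' i hi hb heq
      exact hb (congrFun heq ⟨i, hi⟩)
    refine ⟨⟨fun b => y (res b), (continuous_of_discreteTopology (f := y)).comp hres⟩, ?_, ?_⟩
    · intro q hq
      exact hy2 _ _ _ (hne _ _ p.1.1 (by omega) hq.1) (hne _ _ p.1.2.1 (by omega) hq.2.1)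
        (hne _ _ p.1.2.2 (by omega) hq.2.2)
    · rw [ContinuousMap.dist_lt_iff hε]
      intro b
      have h1 : dist (h0 b) (h0 (rep (res b))) < ε / 3 := by
        apply hN
        intro i hi
        have : i < M := by omega
        simp only [rep, dif_pos this, res]
      have h2 := hy1 (res b)
      calc dist (h0 b) (y (res b)) ≤ dist (h0 b) (h0 (rep (res b))) +
            dist (h0 (rep (res b))) (y (res b)) := dist_triangle _ _ _
        _ < ε / 3 + ε / 3 := by
            rw [dist_comm (h0 (rep (res b))) (y (res b))]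
            exact add_lt_add h1 h2
        _ < ε := by linarith
  have hne : Nonempty C(ℕ → Bool, G) := ⟨ContinuousMap.const _ (Classical.arbitrary G)⟩
  have hd := dense_iInter_of_isOpen hOo hOd
  obtain ⟨h, hh⟩ := hd.nonempty
  refine ⟨h, h.continuous, fun b b' b'' h1 h2 h3 n => ?_⟩
  obtain ⟨i, hi⟩ := Function.ne_iff.1 h1
  obtain ⟨j, hj⟩ := Function.ne_iff.1 h2
  obtain ⟨k, hk⟩ := Function.ne_iff.1 h3
  exact mem_iInter.1 hh ((i, j, k), n) (b, b', b'') ⟨hi, hj, hk⟩

/-- Mycielski's theorem for ternary relations. -/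
theorem mycielski' {G : Type*} [TopologicalSpace G] [IsCompletelyMetrizableSpace G] [Nonempty G]
    {κ : Type*} [Countable κ] (W : κ → Set (G × G × G)) (hWo : ∀ n, IsOpen (W n))
    (hWd : ∀ n, Dense (W n)) :
    ∃ h : (ℕ → Bool) → G, Continuous h ∧
      ∀ b b' b'', b ≠ b' → b ≠ b'' → b' ≠ b'' → ∀ n, (h b, h b', h b'') ∈ W n := by
  let := upgradeIsCompletelyMetrizable G
  exact mycielski W hWo hWd

end Run7.h144.UT
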