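import Mathlib
import Pool.Agent.Run7.h144.UT.Defs
import Pool.Agent.Run7.h144.UT.Myc3
import Pool.Agent.Run7.h144.TD.Main
import Pool.Agent.V11258.BG.Emb

/-!
Separated codes for relations of small rate.
-/

set_option autoImplicit false

namespace Run7.h144.UT

open Pool.Agent.H685R3 (hist)
open Run7.h144.TD

/-- The first `n` bits. -/
def res (n : ℕ) (x : ℕ → Bool) : Fin n → Bool := fun i => x i

theorem hist_eq_ofFn (n : ℕ) (x : ℕ → Bool) : hist x n = List.ofFn (res n x) := by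
  apply List.ext_getElem
  · simp [hist]
  · intro i h1 h2
    simp [hist, res]

theorem finite_hist (n : ℕ) (V : Set (List Bool)) (h : ∀ v ∈ V, ∃ y, hist y n = v) : V.Finite := by
  refine (Set.finite_range (fun f : Fin n → Bool => List.ofFn f)).subset ?_
  intro v hv
  obtain ⟨y, rfl⟩ := h v hv
  exact ⟨res n y, (hist_eq_ofFn n y).symm⟩

theorem continuous_res (n : ℕ) : Continuous (res n) := continuous_pi fun _ => continuous_apply _

theorem pow_aux {a b k n : ℕ} (ha : a ^ (2 * k) ≤ 2 ^ n) (hb : b ^ (2 * k) ≤ 2 ^ n) :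
    (a * b) ^ k ≤ 2 ^ n := by
  have h : ((a * b) ^ k) ^ 2 ≤ (2 ^ n) ^ 2 := by
    calc ((a * b) ^ k) ^ 2 = a ^ (2 * k) * b ^ (2 * k) := by ring
      _ ≤ 2 ^ n * 2 ^ n := Nat.mul_le_mul ha hb
      _ = (2 ^ n) ^ 2 := by ring
  exact (Nat.pow_le_pow_iff_left (by norm_num)).1 h

variable {S S' : (ℕ → Bool) → (ℕ → Bool) → Prop} {k : ℕ}

/-- The ball of the relation `T` around the string `w`. -/
def Ball (T : (ℕ → Bool) → (ℕ → Bool) → Prop) (n : ℕ) (w : List Bool) : Set (List Bool) :=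
  {v | ∃ x y, T x y ∧ hist x n = w ∧ hist y n = v}

theorem finite_ball (T : (ℕ → Bool) → (ℕ → Bool) → Prop) (n : ℕ) (w : List Bool) :
    (Ball T n w).Finite :=
  finite_hist n _ fun _ ⟨_, y, _, _, h⟩ => ⟨y, h⟩

theorem ncard_comp_le (T T' : (ℕ → Bool) → (ℕ → Bool) → Prop) (n : ℕ) (w : List Bool)
    (h : (Ball T n w).ncard ^ (2 * k) ≤ 2 ^ n)
    (h' : ∀ u, (Ball T' n u).ncard ^ (2 * k) ≤ 2 ^ n) :
    (Ball (fun x z => ∃ y, T x y ∧ T' y z) n w).ncard ^ k ≤ 2 ^ n := by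
  classical
  have fA := finite_ball T n w
  let A : Finset (List Bool) := fA.toFinset
  let B : List Bool → Finset (List Bool) := fun u => (finite_ball T' n u).toFinset
  have hsub : Ball (fun x z => ∃ y, T x y ∧ T' y z) n w ⊆ (A.biUnion B : Set (List Bool)) := by
    rintro v ⟨x, z, ⟨y, h1, h2⟩, h3, h4⟩
    simp only [Finset.coe_biUnion, Set.mem_iUnion, Finset.mem_coe]
    exact ⟨hist y n, fA.mem_toFinset.2 ⟨x, y, h1, h3, rfl⟩,
      (finite_ball T' n _).mem_toFinset.2 ⟨y, z, h2, rfl, h4⟩⟩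
  have h1 : (Ball (fun x z => ∃ y, T x y ∧ T' y z) n w).ncard ≤ (A.biUnion B).card := by
    rw [← Set.ncard_coe_finset]
    exact Set.ncard_le_ncard hsub (Finset.finite_toSet _)
  rcases A.eq_empty_or_nonempty with hA | hA
  · rw [hA, Finset.biUnion_empty, Finset.card_empty] at h1
    rw [Nat.le_zero.1 h1]
    rcases Nat.eq_zero_or_pos k with rfl | hk
    · simpa using Nat.one_le_two_pow
    · rw [zero_pow (by omega)]
      exact Nat.zero_le _
  · obtain ⟨u, _, hu⟩ := Finset.exists_mem_eq_sup A hA (fun u => (B u).card)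
    have h2 : (A.biUnion B).card ≤ A.card * (B u).card := by
      refine Finset.card_biUnion_le_card_mul _ _ _ fun a ha => ?_
      rw [← hu]
      exact Finset.le_sup (f := fun u => (B u).card) ha
    have h3 : A.card = (Ball T n w).ncard := (Set.ncard_eq_toFinset_card _ fA).symm
    have h4 : (B u).card = (Ball T' n u).ncard :=
      (Set.ncard_eq_toFinset_card _ (finite_ball T' n u)).symm
    rw [h3, h4] at h2
    exact (Nat.pow_le_pow_left (h1.trans h2) k).trans (pow_aux h (h' u))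

theorem Rate.comp (h : Rate (2 * k) S) (h' : Rate (2 * k) S') :
    Rate k (fun x z => ∃ y, S x y ∧ S' y z) := by
  obtain ⟨T, hT, hN⟩ := h
  obtain ⟨T', hT', hN'⟩ := h'
  refine ⟨fun j x z => ∃ y, T j.unpair.1 x y ∧ T' j.unpair.2 y z, ?_, fun j => ?_⟩
  · rintro x z ⟨y, h1, h2⟩
    obtain ⟨i, hi⟩ := hT x y h1
    obtain ⟨j, hj⟩ := hT' y z h2
    exact ⟨Nat.pair i j, y, by simpa using hi, by simpa using hj⟩
  · obtain ⟨N, hN⟩ := hN j.unpair.1
    obtain ⟨N', hN'⟩ := hN' j.unpair.2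
    refine ⟨max N N', fun n hn w => ?_⟩
    exact ncard_comp_le _ _ n w (hN n (le_trans (le_max_left _ _) hn) w)
      fun u => hN' n (le_trans (le_max_right _ _) hn) u

theorem Rate.union {S : ℕ → (ℕ → Bool) → (ℕ → Bool) → Prop} (h : ∀ m, Rate k (S m)) :
    Rate k (fun x y => ∃ m, S m x y) := by
  choose T hT hN using h
  refine ⟨fun j => T j.unpair.1 j.unpair.2, ?_, fun j => hN j.unpair.1 j.unpair.2⟩
  rintro x y ⟨m, hm⟩
  obtain ⟨i, hi⟩ := hT m x y hm
  exact ⟨Nat.pair m i, by simpa using hi⟩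

theorem Rate.mono (h : Rate k S) (hS : ∀ x y, S' x y → S x y) : Rate k S' := by
  obtain ⟨T, hT, hN⟩ := h
  exact ⟨T, fun x y hxy => hT x y (hS x y hxy), hN⟩

theorem rate_eq (k : ℕ) : Rate k Eq := by
  refine ⟨fun _ => Eq, fun x y h => ⟨0, h⟩, fun _ => ⟨0, fun n _ w => ?_⟩⟩
  have h1 : {v | ∃ x y : ℕ → Bool, x = y ∧ hist x n = w ∧ hist y n = v} ⊆ {w} := by
    rintro v ⟨x, y, rfl, h1, h2⟩
    exact h2.symm.trans h1
  have h2 := Set.ncard_le_ncard h1 (Set.finite_singleton w)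
  rw [Set.ncard_singleton] at h2
  calc _ ≤ 1 ^ k := Nat.pow_le_pow_left h2 k
    _ = 1 := one_pow k
    _ ≤ 2 ^ n := Nat.one_le_two_pow

/-- The `m`-fold composition of `S`. -/
def Chain (S : (ℕ → Bool) → (ℕ → Bool) → Prop) : ℕ → (ℕ → Bool) → (ℕ → Bool) → Prop
  | 0 => Eq
  | m + 1 => fun x z => ∃ y, Chain S m x y ∧ S y z

theorem reach_iff {x z : ℕ → Bool} : Relation.ReflTransGen S x z ↔ ∃ m, Chain S m x z := by
  constructor
  · intro h
    induction h with
    | refl => exact ⟨0, rfl⟩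
    | tail _ h2 ih =>
      obtain ⟨m, hm⟩ := ih
      exact ⟨m + 1, _, hm, h2⟩
  · rintro ⟨m, hm⟩
    induction m generalizing z with
    | zero => exact (show x = z from hm) ▸ Relation.ReflTransGen.refl
    | succ m ih =>
      obtain ⟨y, h1, h2⟩ := hm
      exact (ih h1).tail h2

theorem RateZero.chain (h : RateZero S) : ∀ m, RateZero (Chain S m)
  | 0 => rate_eq
  | m + 1 => fun k => (RateZero.chain h m (2 * k)).comp (h (2 * k))

theorem RateZero.reach (h : RateZero S) : RateZero (Relation.ReflTransGen S) := fun k =>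
  (Rate.union fun m => h.chain m k).mono fun _ _ hxy => reach_iff.1 hxy

/-- `c`, `a` and `a'` are the first `n` moves of player `1 - γ` in a play and of player `γ` in two
related plays. -/
def Bad (T T' : (ℕ → Bool) → (ℕ → Bool) → Prop) (γ n : ℕ) (c a a' : ℕ → Bool) : Prop :=
  ∃ z y y', T z y ∧ T' z y' ∧ res n (part (1 - γ) z) = res n c ∧ res n (part γ y) = res n a ∧
    res n (part γ y') = res n a'

/-- The play which begins like `c` up to `m` and continues like `e`. -/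
def glue (m : ℕ) (c : ℕ → Bool) {q : ℕ} (e : Fin q → Bool) : ℕ → Bool := fun i =>
  if i < m then c i else if h : i - m < q then e ⟨i - m, h⟩ else false

theorem glue_agr (m : ℕ) (c : ℕ → Bool) {q : ℕ} (e : Fin q → Bool) :
    Pool.Agent.V11258.BG.Agr m c (glue m c e) := fun i hi => by
  rw [glue, if_pos hi]

theorem glue_inj (m : ℕ) (c : ℕ → Bool) {q : ℕ} (e e' : Fin q → Bool)
    (h : res (m + q) (glue m c e) = res (m + q) (glue m c e')) : e = e' := by
  funext i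
  have h1 := congrFun h ⟨m + i, by omega⟩
  simp only [res, glue] at h1
  rw [if_neg (by omega), if_neg (by omega), dif_pos (by omega), dif_pos (by omega)] at h1
  have h2 : (⟨m + i.1 - m, by omega⟩ : Fin q) = i := Fin.ext (by simp)
  rw [h2] at h1
  exact h1

/-- The ball as a set of functions. -/
def FBall (T : (ℕ → Bool) → (ℕ → Bool) → Prop) (n : ℕ) (w : Fin n → Bool) :
    Set (Fin n → Bool) :=
  {v | ∃ x y, T x y ∧ res n x = w ∧ res n y = v}

theorem card_fball (T : (ℕ → Bool) → (ℕ → Bool) → Prop) (n : ℕ) (w : Fin n → Bool) :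
    (FBall T n w).ncard ≤ (Ball T n (List.ofFn w)).ncard := by
  rw [← Set.ncard_image_of_injective (FBall T n w) (List.ofFn_injective (n := n) (α := Bool))]
  refine Set.ncard_le_ncard ?_ (finite_ball T n _)
  rintro _ ⟨v, ⟨x, y, h1, h2, h3⟩, rfl⟩
  refine ⟨x, y, h1, ?_, ?_⟩
  · rw [hist_eq_ofFn, h2]
  · rw [hist_eq_ofFn, h3]

theorem count_aux {q n b : ℕ} (h1 : b ^ 5 ≤ 2 ^ (4 * n)) (h2 : 2 ^ (3 * q) ≤ 2 ^ (2 * n) * b) :
    15 * q ≤ 14 * n := by
  have h3 : (2 ^ (3 * q)) ^ 5 ≤ 2 ^ (14 * n) := by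
    calc (2 ^ (3 * q)) ^ 5 ≤ (2 ^ (2 * n) * b) ^ 5 := Nat.pow_le_pow_left h2 5
      _ = 2 ^ (10 * n) * b ^ 5 := by ring
      _ ≤ 2 ^ (10 * n) * 2 ^ (4 * n) := Nat.mul_le_mul_left _ h1
      _ = 2 ^ (14 * n) := by rw [← pow_add]; congr 1; ring
  rw [← pow_mul] at h3
  have h4 := (Nat.pow_le_pow_iff_right (by norm_num : 1 < 2)).1 h3
  omega

/-- Not all the continuations of three given strings are bad. -/
theorem exists_not_bad {T T' : (ℕ → Bool) → (ℕ → Bool) → Prop} {N : ℕ}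
    (h : ∀ n ≥ N, ∀ w, (Ball T n w).ncard ^ 5 ≤ 2 ^ n)
    (h' : ∀ n ≥ N, ∀ w, (Ball T' n w).ncard ^ 5 ≤ 2 ^ n) {γ : ℕ} (hγ : γ < 2) (m : ℕ)
    (c a a' : ℕ → Bool) :
    ∃ q : ℕ, ∃ e1 e2 e3 : Fin q → Bool,
      ¬ Bad T T' γ (m + q) (glue m c e1) (glue m a e2) (glue m a' e3) := by
  classical
  by_contra hcon
  push Not at hcon
  let q : ℕ := 15 * m + N + 1
  have hbad := hcon q
  set n := m + q with hn
  choose z y y' h1 h2 h3 h4 h5 using hbad
  let W := Fin (2 * n) → Bool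
  let D := (Fin q → Bool) × (Fin q → Bool) × (Fin q → Bool)
  let Φ : D → Σ w : W, (FBall T (2 * n) w) × (FBall T' (2 * n) w) := fun d =>
    ⟨res (2 * n) (z d.1 d.2.1 d.2.2),
      ⟨res (2 * n) (y d.1 d.2.1 d.2.2), _, _, h1 _ _ _, rfl, rfl⟩,
      ⟨res (2 * n) (y' d.1 d.2.1 d.2.2), _, _, h2 _ _ _, rfl, rfl⟩⟩
  have hpart : ∀ (β : ℕ), β < 2 → ∀ u v : ℕ → Bool, res (2 * n) u = res (2 * n) v →
      res n (part β u) = res n (part β v) := by
    intro β hβ u v huv
    funext i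
    have := congrFun huv ⟨2 * i + β, by have := i.2; omega⟩
    simpa [res, part] using this
  have hΦ : Function.Injective Φ := by
    rintro ⟨e1, e2, e3⟩ ⟨f1, f2, f3⟩ hd
    have g1 : res (2 * n) (z e1 e2 e3) = res (2 * n) (z f1 f2 f3) := congrArg (fun t => t.1) hd
    have g2 : res (2 * n) (y e1 e2 e3) = res (2 * n) (y f1 f2 f3) :=
      congrArg (fun t => (t.2.1.1 : Fin (2 * n) → Bool)) hd
    have g3 : res (2 * n) (y' e1 e2 e3) = res (2 * n) (y' f1 f2 f3) :=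
      congrArg (fun t => (t.2.2.1 : Fin (2 * n) → Bool)) hd
    have i1 := hpart (1 - γ) (by omega) _ _ g1
    have i2 := hpart γ hγ _ _ g2
    have i3 := hpart γ hγ _ _ g3
    rw [h3, h3] at i1
    rw [h4, h4] at i2
    rw [h5, h5] at i3
    have j1 := glue_inj m c e1 f1 i1
    have j2 := glue_inj m a e2 f2 i2
    have j3 := glue_inj m a' e3 f3 i3
    rw [j1, j2, j3]
  have hcard := Fintype.card_le_of_injective Φ hΦ
  rw [Fintype.card_sigma] at hcard
  have hD : Fintype.card D = 2 ^ (3 * q) := by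
    simp only [D, Fintype.card_prod, Fintype.card_fun, Fintype.card_bool, Fintype.card_fin]
    ring
  have hW : (Finset.univ : Finset W).card = 2 ^ (2 * n) := by
    simp only [W, Finset.card_univ, Fintype.card_fun, Fintype.card_bool, Fintype.card_fin]
  obtain ⟨w₀, _, hw₀⟩ := Finset.exists_mem_eq_sup (Finset.univ : Finset W)
    ⟨fun _ => false, Finset.mem_univ _⟩
    (fun w => Fintype.card ((FBall T (2 * n) w) × (FBall T' (2 * n) w)))
  have hsum : ∑ w : W, Fintype.card ((FBall T (2 * n) w) × (FBall T' (2 * n) w)) ≤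
      2 ^ (2 * n) * Fintype.card ((FBall T (2 * n) w₀) × (FBall T' (2 * n) w₀)) := by
    rw [← hW, ← hw₀]
    refine (Finset.sum_le_card_nsmul _ _ _ fun w hw => ?_).trans (by rw [smul_eq_mul])
    exact Finset.le_sup
      (f := fun w => Fintype.card ((FBall T (2 * n) w) × (FBall T' (2 * n) w))) hw
  have hb : Fintype.card ((FBall T (2 * n) w₀) × (FBall T' (2 * n) w₀)) ^ 5 ≤ 2 ^ (4 * n) := by
    rw [Fintype.card_prod, ← Nat.card_eq_fintype_card, ← Nat.card_eq_fintype_card,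
      Nat.card_coe_set_eq, Nat.card_coe_set_eq, mul_pow]
    have k1 : (FBall T (2 * n) w₀).ncard ^ 5 ≤ 2 ^ (2 * n) :=
      (Nat.pow_le_pow_left (card_fball T (2 * n) w₀) 5).trans (h _ (by omega) _)
    have k2 : (FBall T' (2 * n) w₀).ncard ^ 5 ≤ 2 ^ (2 * n) :=
      (Nat.pow_le_pow_left (card_fball T' (2 * n) w₀) 5).trans (h' _ (by omega) _)
    calc _ ≤ 2 ^ (2 * n) * 2 ^ (2 * n) := Nat.mul_le_mul k1 k2
      _ = 2 ^ (4 * n) := by rw [← pow_add]; congr 1; ring
  rw [hD] at hcard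
  have := count_aux hb (hcard.trans hsum)
  omega

theorem isOpen_bad (T T' : (ℕ → Bool) → (ℕ → Bool) → Prop) (γ : ℕ) :
    IsOpen {p : (ℕ → Bool) × (ℕ → Bool) × (ℕ → Bool) | ∃ n, ¬ Bad T T' γ n p.1 p.2.1 p.2.2} := by
  have h1 : {p : (ℕ → Bool) × (ℕ → Bool) × (ℕ → Bool) | ∃ n, ¬ Bad T T' γ n p.1 p.2.1 p.2.2} =
      ⋃ n, (fun p : (ℕ → Bool) × (ℕ → Bool) × (ℕ → Bool) => (res n p.1, res n p.2.1, res n p.2.2))
        ⁻¹' {r | ¬ ∃ z y y', T z y ∧ T' z y' ∧ res n (part (1 - γ) z) = r.1 ∧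
          res n (part γ y) = r.2.1 ∧ res n (part γ y') = r.2.2} := by
    ext p
    simp [Bad]
  rw [h1]
  refine isOpen_iUnion fun n => (isOpen_discrete _).preimage ?_
  exact ((continuous_res n).comp continuous_fst).prodMk
    (((continuous_res n).comp (continuous_fst.comp continuous_snd)).prodMk
      ((continuous_res n).comp (continuous_snd.comp continuous_snd)))

theorem dense_bad {T T' : (ℕ → Bool) → (ℕ → Bool) → Prop} {N : ℕ}
    (h : ∀ n ≥ N, ∀ w, (Ball T n w).ncard ^ 5 ≤ 2 ^ n)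
    (h' : ∀ n ≥ N, ∀ w, (Ball T' n w).ncard ^ 5 ≤ 2 ^ n) {γ : ℕ} (hγ : γ < 2) :
    Dense {p : (ℕ → Bool) × (ℕ → Bool) × (ℕ → Bool) | ∃ n, ¬ Bad T T' γ n p.1 p.2.1 p.2.2} := by
  rw [dense_iff_inter_open]
  rintro O hO ⟨⟨c, a, a'⟩, hp⟩
  obtain ⟨u, v, hu, hv, hcu, hav, huv⟩ := isOpen_prod_iff.1 hO c (a, a') hp
  obtain ⟨u', v', hu', hv', hau, hav', huv'⟩ := isOpen_prod_iff.1 hv a a' hav
  obtain ⟨m1, hm1⟩ := Pool.Agent.V11258.BG.exists_agr_subset hu hcu
  obtain ⟨m2, hm2⟩ := Pool.Agent.V11258.BG.exists_agr_subset hu' hau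
  obtain ⟨m3, hm3⟩ := Pool.Agent.V11258.BG.exists_agr_subset hv' hav'
  obtain ⟨q, e1, e2, e3, hq⟩ := exists_not_bad h h' hγ (m1 + m2 + m3) c a a'
  refine ⟨(glue (m1 + m2 + m3) c e1, glue (m1 + m2 + m3) a e2, glue (m1 + m2 + m3) a' e3),
    huv ⟨hm1 _ ((glue_agr _ c e1).mono (by omega)), huv' ⟨hm2 _ ((glue_agr _ a e2).mono (by omega)),
      hm3 _ ((glue_agr _ a' e3).mono (by omega))⟩⟩, _, hq⟩

theorem completelyMetrizable : TopologicalSpace.IsCompletelyMetrizableSpace (ℕ → Bool) :=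
  TopologicalSpace.IsCompletelyMetrizableSpace.pi_countable

/-- Relations of rate at most `1 / 5` have separated codes. -/
theorem exists_codes {R : (ℕ → Bool) → (ℕ → Bool) → Prop} (h : Rate 5 R) :
    ∃ κ₀ κ₁ : (ℕ → Bool) → ℕ → Bool, Continuous κ₀ ∧ Continuous κ₁ ∧ Separated R κ₀ κ₁ := by
  have _ := completelyMetrizable
  obtain ⟨T, hT, hN⟩ := h
  choose N hN using hN
  obtain ⟨κ, hκ, hW⟩ := mycielski' (κ := ℕ × ℕ × Fin 2)
    (fun i => {p : (ℕ → Bool) × (ℕ → Bool) × (ℕ → Bool) |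
      ∃ n, ¬ Bad (T i.1) (T i.2.1) i.2.2 n p.1 p.2.1 p.2.2})
    (fun i => isOpen_bad _ _ _)
    (fun i => dense_bad (N := max (N i.1) (N i.2.1))
      (fun n hn w => hN i.1 n (le_trans (le_max_left _ _) hn) w)
      (fun n hn w => hN i.2.1 n (le_trans (le_max_right _ _) hn) w) i.2.2.2)
  have hcons : ∀ (b : Bool) (u v : ℕ → Bool), u ≠ v → cons b u ≠ cons b v := fun b u v huv h =>
    huv (cons_inj h).2
  have hcons' : ∀ (u v : ℕ → Bool), cons false u ≠ cons true v := fun u v h => by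
    simpa using (cons_inj h).1
  refine ⟨fun u => κ (cons false u), fun u => κ (cons true u), hκ.comp (continuous_cons _),
    hκ.comp (continuous_cons _), ?_, ?_⟩
  · intro a t u b u' b' h1 h2
    by_contra huu
    obtain ⟨i, hi⟩ := hT _ _ h1
    obtain ⟨j, hj⟩ := hT _ _ h2
    obtain ⟨n, hn⟩ := hW (cons true t) (cons false u) (cons false u') (hcons' _ _).symm
      (hcons' _ _).symm (hcons _ _ _ huu) (i, j, 0)
    refine hn ⟨_, _, _, hi, hj, ?_, ?_, ?_⟩
    · show res n (part (1 - 0) _) = _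
      rw [show (1 - 0 : ℕ) = 1 from rfl, part_join_one]
    · show res n (part 0 _) = _
      rw [part_join_zero]
    · show res n (part 0 _) = _
      rw [part_join_zero]
  · intro b t a z a' z' h1 h2
    by_contra hzz
    obtain ⟨i, hi⟩ := hT _ _ h1
    obtain ⟨j, hj⟩ := hT _ _ h2
    obtain ⟨n, hn⟩ := hW (cons false t) (cons true z) (cons true z') (hcons' _ _)
      (hcons' _ _) (hcons _ _ _ hzz) (i, j, 1)
    refine hn ⟨_, _, _, hi, hj, ?_, ?_, ?_⟩
    · show res n (part (1 - 1) _) = _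
      rw [show (1 - 1 : ℕ) = 0 from rfl, part_join_zero]
    · show res n (part 1 _) = _
      rw [part_join_one]
    · show res n (part 1 _) = _
      rw [part_join_one]

end Run7.h144.UT
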