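import Mathlib
import Pool.Agent.Run7.h144.UT.Rate

/-!
The coded form of `A` for the equivalence relation generated by a relation of rate zero.
-/

set_option autoImplicit false

namespace Run7.h144.UT

open MeasureTheory
open Pool.Agent.H685R3 (hist WinsI WinsII)
open Run7.h144.TD

variable {S S' : (ℕ → Bool) → (ℕ → Bool) → Prop}

theorem analytic_comp (a : AnalyticSet {p : (ℕ → Bool) × (ℕ → Bool) | S p.1 p.2})
    (a' : AnalyticSet {p : (ℕ → Bool) × (ℕ → Bool) | S' p.1 p.2}) :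
    AnalyticSet {p : (ℕ → Bool) × (ℕ → Bool) | ∃ y, S p.1 y ∧ S' y p.2} := by
  have _ := polish_triple
  have h1 : {p : (ℕ → Bool) × (ℕ → Bool) | ∃ y, S p.1 y ∧ S' y p.2} =
      Prod.fst '' {q : ((ℕ → Bool) × (ℕ → Bool)) × (ℕ → Bool) | S q.1.1 q.2 ∧ S' q.2 q.1.2} := by
    ext p
    constructor
    · rintro ⟨y, hy⟩
      exact ⟨(p, y), hy, rfl⟩
    · rintro ⟨⟨p', y⟩, hy, rfl⟩
      exact ⟨y, hy⟩
  rw [h1]
  refine AnalyticSet.image_of_continuous ?_ continuous_fst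
  have b1 : AnalyticSet {q : ((ℕ → Bool) × (ℕ → Bool)) × (ℕ → Bool) | S q.1.1 q.2} :=
    a.preimage (f := fun q : ((ℕ → Bool) × (ℕ → Bool)) × (ℕ → Bool) => (q.1.1, q.2))
      ((continuous_fst.comp continuous_fst).prodMk continuous_snd)
  have b2 : AnalyticSet {q : ((ℕ → Bool) × (ℕ → Bool)) × (ℕ → Bool) | S' q.2 q.1.2} :=
    a'.preimage (f := fun q : ((ℕ → Bool) × (ℕ → Bool)) × (ℕ → Bool) => (q.2, q.1.2))
      (continuous_snd.prodMk (continuous_snd.comp continuous_fst))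
  have h5 := AnalyticSet.iInter (s := fun i : Bool =>
    if i then {q : ((ℕ → Bool) × (ℕ → Bool)) × (ℕ → Bool) | S q.1.1 q.2} else
      {q : ((ℕ → Bool) × (ℕ → Bool)) × (ℕ → Bool) | S' q.2 q.1.2}) (fun i => by
    cases i
    · simpa using b2
    · simpa using b1)
  have h6 : (⋂ i : Bool, if i then
      {q : ((ℕ → Bool) × (ℕ → Bool)) × (ℕ → Bool) | S q.1.1 q.2} else
      {q : ((ℕ → Bool) × (ℕ → Bool)) × (ℕ → Bool) | S' q.2 q.1.2}) =
      {q : ((ℕ → Bool) × (ℕ → Bool)) × (ℕ → Bool) | S q.1.1 q.2 ∧ S' q.2 q.1.2} := by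
    ext p
    simp [Set.mem_iInter, and_comm]
  rw [← h6]
  exact h5

theorem analytic_chain (a : AnalyticSet {p : (ℕ → Bool) × (ℕ → Bool) | S p.1 p.2}) (m : ℕ) :
    AnalyticSet {p : (ℕ → Bool) × (ℕ → Bool) | Chain S m p.1 p.2} := by
  induction m with
  | zero =>
    have _ := polish_pair
    have : IsClosed {p : (ℕ → Bool) × (ℕ → Bool) | p.1 = p.2} :=
      isClosed_eq continuous_fst continuous_snd
    exact this.analyticSet
  | succ m ih => exact analytic_comp ih a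

theorem analytic_reach (a : AnalyticSet {p : (ℕ → Bool) × (ℕ → Bool) | S p.1 p.2}) :
    AnalyticSet {p : (ℕ → Bool) × (ℕ → Bool) | Relation.ReflTransGen S p.1 p.2} := by
  have h : {p : (ℕ → Bool) × (ℕ → Bool) | Relation.ReflTransGen S p.1 p.2} =
      ⋃ m, {p : (ℕ → Bool) × (ℕ → Bool) | Chain S m p.1 p.2} := by
    ext p
    simp only [Set.mem_setOf_eq, Set.mem_iUnion]
    exact reach_iff
  rw [h]
  exact AnalyticSet.iUnion fun m => analytic_chain a m

/-- The coded forms of all payoff sets for a symmetric analytic relation of rate zero. -/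
theorem main_rate (hs : ∀ x y, S x y → S y x) (a : AnalyticSet {p : (ℕ → Bool) × (ℕ → Bool) | S p.1 p.2})
    (h : RateZero S) :
    ∃ κ₀ κ₁ : (ℕ → Bool) → ℕ → Bool, Continuous κ₀ ∧ Continuous κ₁ ∧ ∀ A : Set (ℕ → Bool),
      ClosedUnder S (Coded (Relation.ReflTransGen S) κ₀ κ₁ A) ∧
      (WinsI (Coded (Relation.ReflTransGen S) κ₀ κ₁ A) ↔ WinsI A) ∧
      (WinsII (Coded (Relation.ReflTransGen S) κ₀ κ₁ A) ↔ WinsII A) := by
  obtain ⟨κ₀, κ₁, c₀, c₁, hsep⟩ := exists_codes (h.reach 5)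
  have hsymm : ∀ x y, Relation.ReflTransGen S x y → Relation.ReflTransGen S y x := by
    intro x y hxy
    induction hxy with
    | refl => exact Relation.ReflTransGen.refl
    | tail _ h2 ih => exact Relation.ReflTransGen.head (hs _ _ h2) ih
  have hR : Equivalence (Relation.ReflTransGen S) :=
    ⟨fun _ => Relation.ReflTransGen.refl, fun h => hsymm _ _ h, fun h1 h2 => h1.trans h2⟩
  refine ⟨κ₀, κ₁, c₀, c₁, fun A => ?_⟩
  obtain ⟨h2, h3⟩ := main hR (analytic_reach a) c₀ c₁ hsep A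
  exact ⟨fun x y hxy => (h2 x y (Relation.ReflTransGen.single hxy)).1, h3⟩

end Run7.h144.UT
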