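import Mathlib
import Pool.Agent.Run7.h144.UT.Main

/-!
Information distance zero is a Borel relation of rate zero, and it contains Turing equivalence with
use `n + o(n)`, for a suitable decoder.
-/

set_option autoImplicit false

namespace Run7.h144.UT

open MeasureTheory
open Nat.Partrec (Code)
open Encodable
open Pool.Agent.H685R3 (hist WinsI WinsII)
open Run7.h144.TD

variable (U : List Bool → List Bool → List Bool)

/-- The string of length `l` which begins like `f`. -/
def cut (L : ℕ) (a : Fin (L + 1) × (Fin L → Bool)) : List Bool := (List.ofFn a.2).take a.1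

theorem exists_cut (L : ℕ) (p : List Bool) (h : p.length ≤ L) : ∃ a, cut L a = p := by
  refine ⟨(⟨p.length, by omega⟩, fun i => p.getD i false), ?_⟩
  apply List.ext_getElem
  · simp [cut, h]
  · intro i h1 h2
    simp only [cut, List.getElem_take, List.getElem_ofFn]
    rw [List.getD_eq_getElem _ _ h2]

theorem rate_decodes : RateZero (Decodes U) := by
  intro k
  rcases Nat.eq_zero_or_pos k with rfl | hk
  · refine ⟨fun _ => Decodes U, fun x y h => ⟨0, h⟩, fun _ => ⟨0, fun n _ w => ?_⟩⟩
    simpa using Nat.one_le_two_pow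
  refine ⟨fun N x y => ∀ n ≥ N, ∃ p : List Bool, 2 * k * p.length ≤ n ∧
    U p (hist x n) = hist y n, fun x y h => h (2 * k), fun N => ⟨N, fun n hn w => ?_⟩⟩
  set L := n / (2 * k) with hL
  have h1 : {v | ∃ x y, (∀ n ≥ N, ∃ p : List Bool, 2 * k * p.length ≤ n ∧
      U p (hist x n) = hist y n) ∧ hist x n = w ∧ hist y n = v} ⊆
      (fun a => U (cut L a) w) '' Set.univ := by
    rintro v ⟨x, y, h, h2, h3⟩
    obtain ⟨p, h4, h5⟩ := h n hn
    obtain ⟨a, ha⟩ := exists_cut L p (by
      rw [hL, Nat.le_div_iff_mul_le (by omega)]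
      calc p.length * (2 * k) = 2 * k * p.length := by ring
        _ ≤ n := h4)
    refine ⟨a, Set.mem_univ _, ?_⟩
    show U (cut L a) w = v
    rw [ha, ← h2, h5, h3]
  have h2 : Set.ncard {v | ∃ x y, (∀ n ≥ N, ∃ p : List Bool, 2 * k * p.length ≤ n ∧
      U p (hist x n) = hist y n) ∧ hist x n = w ∧ hist y n = v} ≤ 2 ^ L * 2 ^ L := by
    calc _ ≤ ((fun a => U (cut L a) w) '' Set.univ).ncard :=
          Set.ncard_le_ncard h1 (Set.toFinite _)
      _ ≤ (Set.univ : Set (Fin (L + 1) × (Fin L → Bool))).ncard :=
          Set.ncard_image_le (Set.toFinite _)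
      _ = (L + 1) * 2 ^ L := by
          rw [Set.ncard_univ, Nat.card_prod]
          simp
      _ ≤ 2 ^ L * 2 ^ L := Nat.mul_le_mul_right _ Nat.lt_two_pow_self
  calc _ ≤ (2 ^ L * 2 ^ L) ^ k := Nat.pow_le_pow_left h2 k
    _ = 2 ^ (2 * k * L) := by rw [← pow_add, ← pow_mul]; congr 1; ring
    _ ≤ 2 ^ n := Nat.pow_le_pow_right (by norm_num) (Nat.mul_div_le n (2 * k))

theorem near_symm (x y : ℕ → Bool) (h : Near U x y) : Near U y x := ⟨h.2, h.1⟩

theorem rate_near : RateZero (Near U) := fun k => (rate_decodes U k).mono fun _ _ h => h.1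

theorem measurable_decodes :
    MeasurableSet {p : (ℕ → Bool) × (ℕ → Bool) | Decodes U p.1 p.2} := by
  have h1 : {p : (ℕ → Bool) × (ℕ → Bool) | Decodes U p.1 p.2} = ⋂ q : ℕ, ⋃ N : ℕ, ⋂ n : ℕ,
      {p : (ℕ → Bool) × (ℕ → Bool) | N ≤ n → ∃ a : List Bool, q * a.length ≤ n ∧
        U a (hist p.1 n) = hist p.2 n} := by
    ext p
    simp only [Set.mem_setOf_eq, Set.mem_iInter, Set.mem_iUnion]
    exact Iff.rfl
  rw [h1]
  refine MeasurableSet.iInter fun q => MeasurableSet.iUnion fun N => MeasurableSet.iInter fun n =>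
    IsOpen.measurableSet ?_
  have h2 : {p : (ℕ → Bool) × (ℕ → Bool) | N ≤ n → ∃ a : List Bool, q * a.length ≤ n ∧
        U a (hist p.1 n) = hist p.2 n} =
      (fun p : (ℕ → Bool) × (ℕ → Bool) => (res n p.1, res n p.2)) ⁻¹'
        {r | N ≤ n → ∃ a : List Bool, q * a.length ≤ n ∧ U a (List.ofFn r.1) = List.ofFn r.2} := by
    ext p
    simp only [Set.mem_setOf_eq, Set.mem_preimage, hist_eq_ofFn]
  rw [h2]
  exact (isOpen_discrete _).preimage (((continuous_res n).comp continuous_fst).prodMk
    ((continuous_res n).comp continuous_snd))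

theorem analytic_near : AnalyticSet {p : (ℕ → Bool) × (ℕ → Bool) | Near U p.1 p.2} := by
  have _ := polish_pair
  exact ((measurable_decodes U).inter (measurable_swap (measurable_decodes U))).analyticSet

/-- The code number of a program and the rest of the advice. -/
def split : List Bool → ℕ × List Bool
  | [] => (0, [])
  | true :: τ => (0, τ)
  | false :: p => ((split p).1 + 1, (split p).2)

theorem split_eq (e : ℕ) (τ : List Bool) : split (List.replicate e false ++ true :: τ) = (e, τ) := by
  induction e with
  | zero => rfl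
  | succ e ih => rw [List.replicate_succ, List.cons_append, split, ih]

open Classical in
/-- The decoder for Turing reductions: the advice consists of the code number of a program and of
the next bits of the oracle. -/
noncomputable def U₀ (p σ : List Bool) : List Bool :=
  (List.range σ.length).map fun i => decide (∃ s ≤ (σ ++ (split p).2).length,
    1 ∈ (Denumerable.ofNat Code (split p).1).eval (encode (i, (σ ++ (split p).2).take s)))

theorem hist_append (x : ℕ → Bool) (n r : ℕ) :
    hist x n ++ (List.range r).map (fun i => x (n + i)) = hist x (n + r) := by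
  simp only [hist, List.range_add, List.map_append, List.map_map]
  rfl

theorem take_hist (x : ℕ → Bool) (n s : ℕ) (h : s ≤ n) : (hist x n).take s = hist x s := by
  simp only [hist, ← List.map_take, List.take_range, min_eq_left h]

theorem decodes_of_use {f : ℕ → ℕ} (hf : ∀ q, ∃ N, ∀ n ≥ N, q * f n ≤ (q + 1) * n)
    {x y : ℕ → Bool} (h : UseLe f x y) : Decodes U₀ x y := by
  classical
  obtain ⟨c, hc⟩ := h
  intro q
  obtain ⟨N₀, hN₀⟩ := hf (2 * q + 2)
  let K := (Finset.range N₀).sup f
  refine ⟨K + N₀ + 2 * q * (encode c + 1), fun n hn => ?_⟩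
  set r := n / (2 * q + 2) with hr
  have hr1 : (2 * q + 2) * r ≤ n := Nat.mul_div_le n (2 * q + 2)
  have hfi : ∀ i < n, f i ≤ n + r := by
    intro i hi
    by_cases h1 : i < N₀
    · have h0 : f i ≤ K := Finset.le_sup (f := f) (Finset.mem_range.2 h1)
      have h2 : f i ≤ n := by omega
      exact h2.trans (Nat.le_add_right _ _)
    · have h2 := hN₀ i (by omega)
      by_contra h3
      push Not at h3
      have h4 : r + 1 ≤ f i - n := by omega
      have h5 : (2 * q + 2) * (f i - n) ≤ n := by
        have h6 : (2 * q + 2) * f i ≤ (2 * q + 2 + 1) * n :=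
          h2.trans (Nat.mul_le_mul_left _ (by omega))
        rw [Nat.mul_sub]
        have : (2 * q + 2 + 1) * n = (2 * q + 2) * n + n := by ring
        omega
      have h7 : f i - n ≤ r := by
        rw [hr, Nat.le_div_iff_mul_le (by omega), mul_comm]
        exact h5
      omega
  refine ⟨List.replicate (encode c) false ++ true :: (List.range r).map (fun i => x (n + i)),
    ?_, ?_⟩
  · have h1 : (List.replicate (encode c) false ++
        true :: (List.range r).map (fun i => x (n + i))).length = encode c + 1 + r := by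
      simp
      omega
    rw [h1]
    have h2 : 2 * (q * (encode c + 1 + r)) = 2 * q * (encode c + 1) + 2 * q * r := by ring
    have h3 : 2 * q * r ≤ n := le_trans (Nat.mul_le_mul_right _ (by omega)) hr1
    omega
  · rw [U₀, split_eq]
    simp only [Denumerable.ofNat_encode, hist_append]
    have h1 : (hist x n).length = n := by simp [hist]
    have h2 : (hist x (n + r)).length = n + r := by simp [hist]
    rw [h1, h2]
    show _ = (List.range n).map y
    refine List.map_congr_left fun i hi => ?_
    rw [List.mem_range] at hi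
    obtain ⟨⟨s, hs1, hs2⟩, hs3⟩ := hc i
    rw [Bool.eq_iff_iff, decide_eq_true_iff]
    constructor
    · rintro ⟨s', h3, h4⟩
      rw [take_hist _ _ _ h3] at h4
      have := hs3 s' 1 h4
      cases hy : y i
      · rw [hy] at this
        simp at this
      · rfl
    · intro hy
      refine ⟨s, hs1.trans (hfi i hi), ?_⟩
      rw [take_hist _ _ _ (hs1.trans (hfi i hi))]
      rw [hy] at hs2
      exact hs2

theorem near_of_slow {x y : ℕ → Bool} (h : SlowUse x y) : Near U₀ x y := by
  obtain ⟨f, hf, h1, h2⟩ := h
  exact ⟨decodes_of_use hf h1, decodes_of_use hf h2⟩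

end Run7.h144.UT
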