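import Mathlib
import Pool.Agent.Run7.h144.UT.Near

/-!
Changes on sets of positions of density zero are a Borel relation of rate zero.
-/

set_option autoImplicit false

namespace Run7.h144.UT

open MeasureTheory
open Pool.Agent.H685R3 (hist WinsI WinsII)
open Run7.h144.TD

theorem bernoulli (M j : ℕ) (hj : 2 * j ≤ M) : M * (M + 1) ^ j ≤ M ^ j * (M + 2 * j) := by
  induction j with
  | zero => simp
  | succ j ih =>
    have h1 := ih (by omega)
    calc M * (M + 1) ^ (j + 1) = M * (M + 1) ^ j * (M + 1) := by ring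
      _ ≤ M ^ j * (M + 2 * j) * (M + 1) := Nat.mul_le_mul_right _ h1
      _ = M ^ j * ((M + 2 * j) * (M + 1)) := by ring
      _ ≤ M ^ j * (M * (M + 2 * (j + 1))) := by
          refine Nat.mul_le_mul_left _ ?_
          nlinarith
      _ = M ^ (j + 1) * (M + 2 * (j + 1)) := by ring

theorem card_small (M n m : ℕ) (hm : m ≤ n) (hM : 0 < M) :
    (((Finset.range n).powerset.filter fun D => D.card ≤ m).card) * M ^ (n - m) ≤ (M + 1) ^ n := by
  have h1 := Finset.sum_pow_mul_eq_add_pow (1 : ℕ) M (Finset.range n)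
  rw [Finset.card_range, add_comm 1 M] at h1
  rw [← h1]
  calc (((Finset.range n).powerset.filter fun D => D.card ≤ m).card) * M ^ (n - m) =
        ∑ _D ∈ (Finset.range n).powerset.filter (fun D => D.card ≤ m), M ^ (n - m) := by
          rw [Finset.sum_const, smul_eq_mul]
    _ ≤ ∑ D ∈ (Finset.range n).powerset.filter (fun D => D.card ≤ m),
          1 ^ D.card * M ^ (n - D.card) := by
        refine Finset.sum_le_sum fun D hD => ?_
        rw [one_pow, one_mul]
        refine Nat.pow_le_pow_right hM ?_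
        have := (Finset.mem_filter.1 hD).2
        omega
    _ ≤ _ := Finset.sum_le_sum_of_subset (Finset.filter_subset _ _)

theorem card_small_pow {k n : ℕ} (hk : 0 < k) :
    (((Finset.range n).powerset.filter fun D => D.card ≤ n / (8 * k * k)).card) ^ k ≤ 2 ^ n := by
  set m := n / (8 * k * k) with hm
  set c := ((Finset.range n).powerset.filter fun D => D.card ≤ m).card with hc
  set M := 2 ^ (4 * k) with hMdef
  have hM0 : 0 < M := Nat.two_pow_pos _
  have hM4 : 4 * k ≤ M := Nat.lt_two_pow_self.le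
  have hmn : m ≤ n := Nat.div_le_self _ _
  have h1 := card_small M n m hmn hM0
  rw [← hc] at h1
  have h2 : (M + 1) ^ (2 * k) ≤ 2 * M ^ (2 * k) := by
    have h3 := bernoulli M (2 * k) (by omega)
    have h4 : M * (M + 1) ^ (2 * k) ≤ M * (2 * M ^ (2 * k)) := by
      calc M * (M + 1) ^ (2 * k) ≤ M ^ (2 * k) * (M + 2 * (2 * k)) := h3
        _ ≤ M ^ (2 * k) * (M + M) := Nat.mul_le_mul_left _ (by omega)
        _ = M * (2 * M ^ (2 * k)) := by ring
    exact Nat.le_of_mul_le_mul_left h4 hM0
  have h5 : c ^ (2 * k) * M ^ (2 * k * (n - m)) ≤ 2 ^ n * M ^ (2 * k * m) *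
      M ^ (2 * k * (n - m)) := by
    calc c ^ (2 * k) * M ^ (2 * k * (n - m)) = (c * M ^ (n - m)) ^ (2 * k) := by
          rw [mul_pow, ← pow_mul M (n - m) (2 * k), mul_comm (n - m) (2 * k)]
      _ ≤ ((M + 1) ^ n) ^ (2 * k) := Nat.pow_le_pow_left h1 _
      _ = ((M + 1) ^ (2 * k)) ^ n := by rw [← pow_mul, ← pow_mul, mul_comm]
      _ ≤ (2 * M ^ (2 * k)) ^ n := Nat.pow_le_pow_left h2 _
      _ = 2 ^ n * M ^ (2 * k * m + 2 * k * (n - m)) := by
          rw [mul_pow, ← pow_mul, ← Nat.mul_add, Nat.add_sub_cancel' hmn]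
      _ = 2 ^ n * M ^ (2 * k * m) * M ^ (2 * k * (n - m)) := by
          rw [pow_add]
          ring
  have h6 : c ^ (2 * k) ≤ 2 ^ n * M ^ (2 * k * m) :=
    Nat.le_of_mul_le_mul_right h5 (Nat.pow_pos hM0)
  have h7 : M ^ (2 * k * m) ≤ 2 ^ n := by
    rw [hMdef, ← pow_mul]
    refine Nat.pow_le_pow_right (by norm_num) ?_
    calc 4 * k * (2 * k * m) = 8 * k * k * m := by ring
      _ ≤ n := Nat.mul_div_le n _
  have h8 : (c ^ k) ^ 2 ≤ (2 ^ n) ^ 2 := by
    calc (c ^ k) ^ 2 = c ^ (2 * k) := by rw [← pow_mul, mul_comm]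
      _ ≤ 2 ^ n * 2 ^ n := h6.trans (Nat.mul_le_mul_left _ h7)
      _ = (2 ^ n) ^ 2 := by ring
  exact (Nat.pow_le_pow_iff_left (by norm_num)).1 h8

theorem rate_density : RateZero DensityZero := by
  classical
  intro k
  rcases Nat.eq_zero_or_pos k with rfl | hk
  · refine ⟨fun _ => DensityZero, fun x y h => ⟨0, h⟩, fun _ => ⟨0, fun n _ w => ?_⟩⟩
    simpa using Nat.one_le_two_pow
  refine ⟨fun N x y => ∀ n ≥ N,
    8 * k * k * ((Finset.range n).filter fun i => x i ≠ y i).card ≤ n,
    fun x y h => h (8 * k * k), fun N => ⟨N, fun n hn w => ?_⟩⟩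
  refine (Nat.pow_le_pow_left ?_ k).trans (card_small_pow hk)
  rw [← Set.ncard_coe_finset]
  have h1 : {v | ∃ x y, (∀ n ≥ N, 8 * k * k * ((Finset.range n).filter fun i => x i ≠ y i).card ≤ n) ∧
      hist x n = w ∧ hist y n = v} ⊆
      (fun D : Finset ℕ => (List.range n).map fun i => xor (w.getD i false) (decide (i ∈ D))) ''
        (((Finset.range n).powerset.filter fun D => D.card ≤ n / (8 * k * k) :
          Finset (Finset ℕ)) : Set (Finset ℕ)) := by
    rintro v ⟨x, y, h, h2, h3⟩
    refine ⟨(Finset.range n).filter fun i => x i ≠ y i, ?_, ?_⟩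
    · rw [Finset.mem_coe, Finset.mem_filter, Finset.mem_powerset]
      refine ⟨Finset.filter_subset _ _, ?_⟩
      rw [Nat.le_div_iff_mul_le (by positivity), mul_comm]
      exact h n hn
    · rw [← h3, ← h2]
      show _ = (List.range n).map y
      refine List.map_congr_left fun i hi => ?_
      rw [List.mem_range] at hi
      have h4 : (hist x n).getD i false = x i := by
        simp [hist, List.getD_eq_getElem?_getD, hi]
      rw [h4]
      simp only [Finset.mem_filter, Finset.mem_range, hi, true_and]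
      cases x i <;> cases y i <;> simp
  exact (Set.ncard_le_ncard h1 (Set.toFinite _)).trans (Set.ncard_image_le (Set.toFinite _))

theorem density_symm (x y : ℕ → Bool) (h : DensityZero x y) : DensityZero y x := by
  intro q
  obtain ⟨N, hN⟩ := h q
  refine ⟨N, fun n hn => ?_⟩
  have h1 : ((Finset.range n).filter fun i => y i ≠ x i) =
      ((Finset.range n).filter fun i => x i ≠ y i) :=
    Finset.filter_congr fun i _ => ne_comm
  rw [h1]
  exact hN n hn

theorem measurable_density :
    MeasurableSet {p : (ℕ → Bool) × (ℕ → Bool) | DensityZero p.1 p.2} := by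
  classical
  have h1 : {p : (ℕ → Bool) × (ℕ → Bool) | DensityZero p.1 p.2} = ⋂ q : ℕ, ⋃ N : ℕ, ⋂ n : ℕ,
      {p : (ℕ → Bool) × (ℕ → Bool) | N ≤ n →
        q * ((Finset.range n).filter fun i => p.1 i ≠ p.2 i).card ≤ n} := by
    ext p
    simp only [Set.mem_setOf_eq, Set.mem_iInter, Set.mem_iUnion]
    exact Iff.rfl
  rw [h1]
  refine MeasurableSet.iInter fun q => MeasurableSet.iUnion fun N => MeasurableSet.iInter fun n =>
    IsOpen.measurableSet ?_
  have h2 : {p : (ℕ → Bool) × (ℕ → Bool) | N ≤ n →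
        q * ((Finset.range n).filter fun i => p.1 i ≠ p.2 i).card ≤ n} =
      (fun p : (ℕ → Bool) × (ℕ → Bool) => (res n p.1, res n p.2)) ⁻¹'
        {r | N ≤ n → q * ((Finset.univ : Finset (Fin n)).filter fun i => r.1 i ≠ r.2 i).card ≤
          n} := by
    ext p
    have h3 : ((Finset.range n).filter fun i => p.1 i ≠ p.2 i) =
        ((Finset.univ : Finset (Fin n)).filter fun i => res n p.1 i ≠ res n p.2 i).map
          Fin.valEmbedding := by
      ext i
      simp only [Finset.mem_filter, Finset.mem_range, Finset.mem_map, Finset.mem_univ, true_and,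
        Fin.valEmbedding_apply, res]
      constructor
      · rintro ⟨h4, h5⟩
        exact ⟨⟨i, h4⟩, h5, rfl⟩
      · rintro ⟨j, h4, rfl⟩
        exact ⟨j.2, h4⟩
    simp only [Set.mem_setOf_eq, Set.mem_preimage]
    rw [h3, Finset.card_map]
  rw [h2]
  exact (isOpen_discrete _).preimage (((continuous_res n).comp continuous_fst).prodMk
    ((continuous_res n).comp continuous_snd))

theorem rate_or {S S' : (ℕ → Bool) → (ℕ → Bool) → Prop} (h : RateZero S) (h' : RateZero S') :
    RateZero fun x y => S x y ∨ S' x y := by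
  intro k
  refine (Rate.union (S := fun m => if m = 0 then S else S') fun m => ?_).mono
    (S' := fun x y => S x y ∨ S' x y) ?_
  · by_cases hm : m = 0
    · simp only [hm, if_true]
      exact h k
    · simp only [hm, if_false]
      exact h' k
  · rintro x y (h1 | h1)
    · exact ⟨0, by simpa using h1⟩
    · exact ⟨1, by simpa using h1⟩

theorem coarse_symm (U : List Bool → List Bool → List Bool) (x y : ℕ → Bool)
    (h : Coarse U x y) : Coarse U y x :=
  h.imp (near_symm U x y) (density_symm x y)

theorem rate_coarse (U : List Bool → List Bool → List Bool) : RateZero (Coarse U) :=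
  rate_or (rate_near U) rate_density

theorem analytic_coarse (U : List Bool → List Bool → List Bool) :
    AnalyticSet {p : (ℕ → Bool) × (ℕ → Bool) | Coarse U p.1 p.2} := by
  have _ := polish_pair
  exact analytic_or (analytic_near U) measurable_density.analyticSet

end Run7.h144.UT
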